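import Pool.Agent.R788.MagOrd

/-!
# An order-preserving braid whose Burau matrix has no positive eigenvalue

The pure 3-braid `σ₁² σ₂² σ₁⁻² σ₂⁻²` is order-preserving, and both eigenvalues of its reduced Burau
matrix are negative: the characteristic polynomial is `x² - τ x + 1` with
`τ = -t⁻³ + 3 t⁻² - 3 t⁻¹ + 4 - 3 t + 3 t² - t³`.
-/

set_option autoImplicit false

namespace Pool.Agent.Results.MP_6f07cb_gt.PureBraid

open FreeGroup Matrix LaurentPolynomial

/-- The relation `σ₀ σ₁ σ₀ = σ₁ σ₀ σ₁` of the braid group on three strands. -/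
def rels : Set (FreeGroup (Fin 2)) := {of 0 * of 1 * of 0 * (of 1 * of 0 * of 1)⁻¹}

/-- The braid group `B₃` (generators `σ₀`, `σ₁`). -/
abbrev B3 : Type := PresentedGroup rels

/-- The standard generators of `B₃`. -/
def σ (i : Fin 2) : B3 := PresentedGroup.of i

/-- The free group on `x₀, x₁, x₂`. -/
abbrev F3 : Type := FreeGroup (Fin 3)

/-- The Artin automorphism of `σ₀`: `x₀ ↦ x₀ x₁ x₀⁻¹`, `x₁ ↦ x₀`, `x₂ ↦ x₂`. -/
def artin0 : MulAut F3 :=
  MonoidHom.toMulEquiv
    (FreeGroup.lift ![of 0 * of 1 * (of 0)⁻¹, of 0, of 2])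
    (FreeGroup.lift ![of 1, (of 1)⁻¹ * of 0 * of 1, of 2])
    (by ext j; fin_cases j <;> simp [mul_assoc])
    (by ext j; fin_cases j <;> simp [mul_assoc])

/-- The Artin automorphism of `σ₁`: `x₁ ↦ x₁ x₂ x₁⁻¹`, `x₂ ↦ x₁`, `x₀ ↦ x₀`. -/
def artin1 : MulAut F3 :=
  MonoidHom.toMulEquiv
    (FreeGroup.lift ![of 0, of 1 * of 2 * (of 1)⁻¹, of 1])
    (FreeGroup.lift ![of 0, of 2, (of 2)⁻¹ * of 1 * of 2])
    (by ext j; fin_cases j <;> simp [mul_assoc])
    (by ext j; fin_cases j <;> simp [mul_assoc])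

theorem artin_rel : artin0 * artin1 * artin0 = artin1 * artin0 * artin1 := by
  apply MulEquiv.toMonoidHom_injective
  ext j
  fin_cases j <;> simp [artin0, artin1, mul_assoc]

/-- The Artin action of `B₃` on the free group of rank three. -/
def artin : B3 →* MulAut F3 :=
  PresentedGroup.toGroup (f := ![artin0, artin1]) (by
    rintro r hr
    rw [rels, Set.mem_singleton_iff] at hr
    rw [hr]
    simp [artin_rel])

/-- `P` is the positive cone of a bi-order of `F₃` (an order invariant under left and right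
multiplication): a conjugation invariant subsemigroup such that every element `x` satisfies exactly
one of `x ∈ P`, `x = 1`, `x⁻¹ ∈ P`. -/
structure IsPositiveCone (P : Set F3) : Prop where
  mul : ∀ x ∈ P, ∀ y ∈ P, x * y ∈ P
  conj : ∀ g, ∀ x ∈ P, g * x * g⁻¹ ∈ P
  one : (1 : F3) ∉ P
  total : ∀ x, x ≠ 1 → (x ∈ P ∨ x⁻¹ ∈ P)
  antisymm : ∀ x ∈ P, x⁻¹ ∉ P

/-- The braid `β` is order-preserving: its Artin automorphism maps the positive cone of some
bi-order onto itself. -/
def OrderPreserving (β : B3) : Prop :=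
  ∃ P : Set F3, IsPositiveCone P ∧ (artin β) '' P = P

theorem T_mul_T_neg : (T 1 * T (-1) : ℤ[T;T⁻¹]) = 1 := by rw [← T_add]; simp

theorem T_neg_mul_T : (T (-1) * T 1 : ℤ[T;T⁻¹]) = 1 := by rw [← T_add]; simp

/-- The reduced Burau matrix of `σ₀`. -/
noncomputable def burau0 : (Matrix (Fin 2) (Fin 2) ℤ[T;T⁻¹])ˣ where
  val := !![-T 1, 1; 0, 1]
  inv := !![-T (-1), T (-1); 0, 1]
  val_inv := by
    have h := T_mul_T_neg
    rw [Matrix.mul_fin_two]
    ext i j
    fin_cases i <;> fin_cases j <;> simp [h]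
  inv_val := by
    have h := T_neg_mul_T
    rw [Matrix.mul_fin_two]
    ext i j
    fin_cases i <;> fin_cases j <;> simp [h]

/-- The reduced Burau matrix of `σ₁`. -/
noncomputable def burau1 : (Matrix (Fin 2) (Fin 2) ℤ[T;T⁻¹])ˣ where
  val := !![1, 0; T 1, -T 1]
  inv := !![1, 0; 1, -T (-1)]
  val_inv := by
    have h := T_mul_T_neg
    rw [Matrix.mul_fin_two]
    ext i j
    fin_cases i <;> fin_cases j <;> simp [h]
  inv_val := by
    have h := T_neg_mul_T
    rw [Matrix.mul_fin_two]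
    ext i j
    fin_cases i <;> fin_cases j <;> simp [h]

theorem burau_rel : burau0 * burau1 * burau0 = burau1 * burau0 * burau1 := by
  apply Units.ext
  show !![-T 1, 1; 0, 1] * !![1, 0; T 1, -T 1] * !![-T 1, 1; 0, 1] =
    !![1, 0; T 1, -T 1] * !![-T 1, 1; 0, 1] * (!![1, 0; T 1, -T 1] : Matrix _ _ ℤ[T;T⁻¹])
  ext i j
  fin_cases i <;> fin_cases j <;> simp [Matrix.mul_apply, Fin.sum_univ_two]

/-- The reduced Burau representation `ρ` of `B₃`, in its standard matrices
`ρ(σ₀) = (-t 1; 0 1)`, `ρ(σ₁) = (1 0; t -t)`. -/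
noncomputable def burau : B3 →* (Matrix (Fin 2) (Fin 2) ℤ[T;T⁻¹])ˣ :=
  PresentedGroup.toGroup (f := ![burau0, burau1]) (by
    rintro r hr
    rw [rels, Set.mem_singleton_iff] at hr
    rw [hr]
    simp [burau_rel])

/-- The total winding number `F₃ → ℤ`. -/
def wind : F3 →* Multiplicative ℤ := FreeGroup.lift fun _ => Multiplicative.ofAdd 1

/-- Check of the matrices (not used below). Let `K = ker wind` and let `f : K → H₁(K)` be the
canonical map: it is additive on `K`, and conjugation by `g` acts as `t ^ wind g`. The module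
`H₁(K)` has the basis `e₀ = f(x₀ x₁⁻¹)`, `e₁ = f(x₁ x₂⁻¹)`, and the columns of the Burau matrices are
the coordinates of the images of `e₀` and `e₁` under the Artin automorphisms. -/
theorem burau_check {A : Type} [AddCommGroup A] [Module ℤ[T;T⁻¹] A] (f : F3 → A)
    (hadd : ∀ x y, wind x = 1 → wind y = 1 → f (x * y) = f x + f y)
    (hconj : ∀ g x, wind x = 1 → f (g * x * g⁻¹) = (T (Multiplicative.toAdd (wind g)) : ℤ[T;T⁻¹]) • f x) :
    (∀ j : Fin 2, f (artin0 (of j.castSucc * (of j.succ)⁻¹)) =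
      ∑ i : Fin 2, (burau0 : Matrix (Fin 2) (Fin 2) ℤ[T;T⁻¹]) i j • f (of i.castSucc * (of i.succ)⁻¹)) ∧
    (∀ j : Fin 2, f (artin1 (of j.castSucc * (of j.succ)⁻¹)) =
      ∑ i : Fin 2, (burau1 : Matrix (Fin 2) (Fin 2) ℤ[T;T⁻¹]) i j • f (of i.castSucc * (of i.succ)⁻¹)) := by
  have w : ∀ i : Fin 3, wind (of i) = Multiplicative.ofAdd 1 := fun i => FreeGroup.lift_apply_of
  have wk : ∀ i j : Fin 3, wind (of i * (of j)⁻¹) = 1 := fun i j => by
    rw [_root_.map_mul, _root_.map_inv, w, w, mul_inv_cancel]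
  have hinv : ∀ x, wind x = 1 → f x⁻¹ = - f x := by
    intro x hx
    have h1 := hadd 1 1 (map_one _) (map_one _)
    rw [mul_one] at h1
    have h2 : f 1 = 0 := add_eq_left.1 h1.symm
    have h3 := hadd x x⁻¹ hx (by rw [_root_.map_inv, hx, inv_one])
    rw [mul_inv_cancel, h2] at h3
    exact (neg_eq_of_add_eq_zero_right h3.symm).symm
  have hc : ∀ i : Fin 3, ∀ x, wind x = 1 → f (of i * x * (of i)⁻¹) = (T 1 : ℤ[T;T⁻¹]) • f x := by
    intro i x hx
    rw [hconj _ _ hx, w]
    rfl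
  constructor
  · intro j
    fin_cases j
    · have e : artin0 (of 0 * (of 1)⁻¹) = of 0 * (of 0 * (of 1)⁻¹)⁻¹ * (of 0)⁻¹ := by
        simp [artin0, mul_assoc]
      show f (artin0 (of 0 * (of 1)⁻¹)) = _
      rw [e, hc _ _ (by rw [_root_.map_inv, wk, inv_one]), hinv _ (wk 0 1)]
      simp [burau0, Fin.sum_univ_two]
    · have e : artin0 (of 1 * (of 2)⁻¹) = (of 0 * (of 1)⁻¹) * (of 1 * (of 2)⁻¹) := by
        simp [artin0, mul_assoc]
      show f (artin0 (of 1 * (of 2)⁻¹)) = _
      rw [e, hadd _ _ (wk 0 1) (wk 1 2)]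
      simp [burau0, Fin.sum_univ_two]
  · intro j
    fin_cases j
    · have e : artin1 (of 0 * (of 1)⁻¹) =
          (of 0 * (of 1)⁻¹) * (of 1 * (of 1 * (of 2)⁻¹) * (of 1)⁻¹) := by
        simp [artin1, mul_assoc]
      show f (artin1 (of 0 * (of 1)⁻¹)) = _
      rw [e, hadd _ _ (wk 0 1) (by
        rw [_root_.map_mul, _root_.map_mul, wk, mul_one, _root_.map_inv, mul_inv_cancel]),
        hc _ _ (wk 1 2)]
      simp [burau1, Fin.sum_univ_two]
    · have e : artin1 (of 1 * (of 2)⁻¹) = of 1 * (of 1 * (of 2)⁻¹)⁻¹ * (of 1)⁻¹ := by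
        simp [artin1, mul_assoc]
      show f (artin1 (of 1 * (of 2)⁻¹)) = _
      rw [e, hc _ _ (by rw [_root_.map_inv, wk, inv_one]), hinv _ (wk 1 2)]
      simp [burau1, Fin.sum_univ_two]

/-- The field of Hahn series in `t` with real coefficients and rational exponents; it contains the
field `𝔼` of Puiseux series. -/
abbrev H : Type := HahnSeries ℚ ℝ

/-- `x` is a Puiseux series: its exponents lie in `(1/N) ℤ` for some `N ≥ 1` (they are bounded
below, as the exponents of every Hahn series are). -/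
def IsPuiseux (x : H) : Prop := ∃ N : ℕ, 0 < N ∧ ∀ q ∈ x.support, ∃ k : ℤ, q = (k : ℚ) / N

/-- The variable `t` as a unit of the field `H`. -/
noncomputable def t : Hˣ := Units.mk0 (HahnSeries.single 1 1) (by simp)

/-- The inclusion `ℤ[t, t⁻¹] ⊂ 𝔼 ⊂ H`. -/
noncomputable def incl : ℤ[T;T⁻¹] →+* H := LaurentPolynomial.eval₂ (Int.castRingHom H) t

/-- `x` is an eigenvalue of `ρ(β)` in `𝔼`: a Puiseux series which is a root of the characteristic
polynomial of `ρ(β)`. -/
def IsEigenvalue (β : B3) (x : H) : Prop :=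
  IsPuiseux x ∧ Polynomial.eval₂ incl x (burau β : Matrix (Fin 2) (Fin 2) ℤ[T;T⁻¹]).charpoly = 0

/-- A nonzero series is positive (negative) if the coefficient of its lowest exponent is. -/
def Positive (x : H) : Prop := 0 < x.leadingCoeff

@[inherit_doc Positive]
def Negative (x : H) : Prop := x.leadingCoeff < 0

/-! ### The braid is order-preserving -/

section order

open Pool.Agent.R788.Mag Pool.Agent.TH94.Gol

theorem cone_isPositive : IsPositiveCone (PCone : Set F3) where
  mul _ hx _ hy := PCone_mul hx hy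
  conj g _ hx := PCone_conj g hx
  one := one_notMem_PCone
  total _ hx := PCone_total hx
  antisymm _ hx := PCone_not_both hx

theorem cf_one_mul (x y : F3) : cf 1 (x * y) = cf 1 x + cf 1 y := (DD_mul le_rfl (DD_one x) (DD_one y)).2

theorem cf_one_inv (x : F3) : cf 1 x⁻¹ = - cf 1 x := (DD_inv le_rfl (DD_one x)).2

/-- `cf 1` as a homomorphism -/
noncomputable def cfHom : F3 →* Multiplicative (MonoidAlgebra ℚ (FreeMonoid (Fin 3))) where
  toFun x := Multiplicative.ofAdd (cf 1 x)
  map_one' := by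
    have h := cf_one_mul 1 1
    rw [mul_one] at h
    have h2 : cf 1 (1 : F3) = 0 := by
      have := add_eq_left.1 h.symm
      exact this
    rw [h2]
    rfl
  map_mul' x y := by
    rw [cf_one_mul]
    rfl

/-- the automorphisms which act trivially on the abelianization -/
def Triv (φ : MulAut F3) : Prop := ∀ x, cf 1 (φ x) = cf 1 x

theorem Triv.mul {φ ψ : MulAut F3} (h : Triv φ) (h' : Triv ψ) : Triv (φ * ψ) := by
  intro x
  rw [MulAut.mul_apply, h, h']

theorem Triv.inv {φ : MulAut F3} (h : Triv φ) : Triv φ⁻¹ := by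
  intro x
  have := h (φ⁻¹ x)
  rw [MulAut.apply_inv_self] at this
  exact this.symm

theorem triv_of_gen {φ : MulAut F3} (h : ∀ j, cf 1 (φ (of j)) = cf 1 (of j)) : Triv φ := by
  have e : cfHom.comp φ.toMonoidHom = cfHom :=
    FreeGroup.ext_hom _ _ fun j => congrArg Multiplicative.ofAdd (h j)
  intro x
  exact congrArg Multiplicative.toAdd (DFunLike.congr_fun e x)

theorem triv0 : Triv (artin0 * artin0) := by
  apply triv_of_gen
  intro j
  rw [MulAut.mul_apply]
  fin_cases j <;> simp [artin0, cf_one_mul, cf_one_inv]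

theorem triv1 : Triv (artin1 * artin1) := by
  apply triv_of_gen
  intro j
  rw [MulAut.mul_apply]
  fin_cases j <;> simp [artin1, cf_one_mul, cf_one_inv]

end order

/-! ### Positivity in the field of Hahn series -/

theorem pos_iff (x : H) : Positive x ↔ 0 < toLex x := HahnSeries.leadingCoeff_pos_iff (x := toLex x)

theorem Positive.add {x y : H} (hx : Positive x) (hy : Positive y) : Positive (x + y) := by
  rw [pos_iff] at *
  exact add_pos hx hy

theorem Positive.mul {x y : H} (hx : Positive x) (hy : Positive y) : Positive (x * y) := by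
  unfold Positive at *
  rw [HahnSeries.leadingCoeff_mul]
  exact mul_pos hx hy

theorem positive_one : Positive (1 : H) := by
  unfold Positive
  rw [HahnSeries.leadingCoeff_one]
  exact one_pos

/-- the braid `σ₀² σ₁² σ₀⁻² σ₁⁻²` -/
def β : B3 := σ 0 * σ 0 * (σ 1 * σ 1) * (σ 0 * σ 0)⁻¹ * (σ 1 * σ 1)⁻¹

theorem orderPreserving_β : OrderPreserving β := by
  refine ⟨_, cone_isPositive, ?_⟩
  apply Pool.Agent.R788.Mag.PCone_aut
  have h0 : artin (σ 0) = artin0 := by
    simp [artin, σ]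
  have h1 : artin (σ 1) = artin1 := by
    simp [artin, σ]
  have h : Triv (artin β) := by
    rw [β, _root_.map_mul, _root_.map_mul, _root_.map_mul, _root_.map_inv, _root_.map_inv,
      _root_.map_mul, _root_.map_mul, h0, h1]
    exact ((triv0.mul triv1).mul triv0.inv).mul triv1.inv
  exact h

/-! ### The characteristic polynomial -/

/-- the variable `t` as an element of the field -/
noncomputable def s : H := (t : H)

theorem s_ne : s ≠ 0 := t.ne_zero

theorem s_pos : Positive s := by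
  unfold Positive s t
  rw [Units.val_mk0, HahnSeries.leadingCoeff_of_single]
  exact one_pos

theorem incl_T_one : incl (T 1) = s := by
  rw [incl, LaurentPolynomial.eval₂_T, zpow_one, s]

theorem incl_T_neg : incl (T (-1)) = s⁻¹ := by
  rw [incl, LaurentPolynomial.eval₂_T, _root_.zpow_neg, zpow_one, s, Units.val_inv_eq_inv_val]

theorem burau_β : (burau β : Matrix (Fin 2) (Fin 2) ℤ[T;T⁻¹]) =
    !![-T 1, 1; 0, 1] * !![-T 1, 1; 0, 1] * (!![1, 0; T 1, -T 1] * !![1, 0; T 1, -T 1]) *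
    (!![-T (-1), T (-1); 0, 1] * !![-T (-1), T (-1); 0, 1]) *
    (!![1, 0; 1, -T (-1)] * !![1, 0; 1, -T (-1)]) := by
  have h0 : burau (σ 0) = burau0 := by
    simp [burau, σ]
  have h1 : burau (σ 1) = burau1 := by
    simp [burau, σ]
  rw [β, _root_.map_mul, _root_.map_mul, _root_.map_mul, _root_.map_inv, _root_.map_inv,
      _root_.map_mul, _root_.map_mul, h0, h1, _root_.mul_inv_rev, _root_.mul_inv_rev]
  rfl

theorem map_burau_β : (burau β : Matrix (Fin 2) (Fin 2) ℤ[T;T⁻¹]).map incl =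
    !![-s, 1; 0, 1] * !![-s, 1; 0, 1] * (!![1, 0; s, -s] * !![1, 0; s, -s]) *
    (!![-s⁻¹, s⁻¹; 0, 1] * !![-s⁻¹, s⁻¹; 0, 1]) * (!![1, 0; 1, -s⁻¹] * !![1, 0; 1, -s⁻¹]) := by
  have e1 : (!![-T 1, 1; 0, 1] : Matrix (Fin 2) (Fin 2) ℤ[T;T⁻¹]).map incl = !![-s, 1; 0, 1] := by
    ext i j
    fin_cases i <;> fin_cases j <;> simp [incl_T_one]
  have e2 : (!![1, 0; T 1, -T 1] : Matrix (Fin 2) (Fin 2) ℤ[T;T⁻¹]).map incl = !![1, 0; s, -s] := by
    ext i j
    fin_cases i <;> fin_cases j <;> simp [incl_T_one]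
  have e3 : (!![-T (-1), T (-1); 0, 1] : Matrix (Fin 2) (Fin 2) ℤ[T;T⁻¹]).map incl =
      !![-s⁻¹, s⁻¹; 0, 1] := by
    ext i j
    fin_cases i <;> fin_cases j <;> simp [incl_T_neg]
  have e4 : (!![1, 0; 1, -T (-1)] : Matrix (Fin 2) (Fin 2) ℤ[T;T⁻¹]).map incl =
      !![1, 0; 1, -s⁻¹] := by
    ext i j
    fin_cases i <;> fin_cases j <;> simp [incl_T_neg]
  rw [burau_β]
  simp only [Matrix.map_mul, e1, e2, e3, e4]

/-- The trace and the determinant. -/
theorem trace_det : incl (burau β : Matrix (Fin 2) (Fin 2) ℤ[T;T⁻¹]).trace =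
      -(s⁻¹ ^ 3 * (1 - 3 * s + 3 * s ^ 2 - 4 * s ^ 3 + 3 * s ^ 4 - 3 * s ^ 5 + s ^ 6)) ∧
    incl (burau β : Matrix (Fin 2) (Fin 2) ℤ[T;T⁻¹]).det = 1 := by
  have hs := s_ne
  have h1 : incl (burau β : Matrix (Fin 2) (Fin 2) ℤ[T;T⁻¹]).trace =
      ((burau β : Matrix (Fin 2) (Fin 2) ℤ[T;T⁻¹]).map incl).trace := by
    simp [Matrix.trace, Fin.sum_univ_two]
  have h2 : incl (burau β : Matrix (Fin 2) (Fin 2) ℤ[T;T⁻¹]).det =
      ((burau β : Matrix (Fin 2) (Fin 2) ℤ[T;T⁻¹]).map incl).det := by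
    rw [RingHom.map_det]
    rfl
  rw [h1, h2, map_burau_β]
  simp only [Matrix.mul_fin_two, Matrix.trace_fin_two_of, Matrix.det_fin_two_of]
  constructor
  · field_simp
    ring
  · field_simp
    ring

/-- `1 - n t` is positive -/
theorem pos_one_sub (n : ℕ) : Positive (1 - n * s) := by
  rw [pos_iff]
  have h : toLex ((n : H) * s) < toLex (1 : H) := by
    rw [HahnSeries.lt_iff]
    have hs : (n : H) * s = HahnSeries.single 1 (n : ℝ) := by
      have : (n : H) = HahnSeries.C (n : ℝ) := by simp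
      rw [this, s, t, Units.val_mk0, HahnSeries.C_apply, HahnSeries.single_mul_single, zero_add,
        mul_one]
    refine ⟨0, ?_, ?_⟩
    · intro j hj
      show ((n : H) * s).coeff j = (1 : H).coeff j
      rw [hs, HahnSeries.coeff_single_of_ne (by intro h; rw [h] at hj; norm_num at hj),
        HahnSeries.coeff_one, if_neg hj.ne]
    · show ((n : H) * s).coeff 0 < (1 : H).coeff 0
      rw [hs, HahnSeries.coeff_single_of_ne (by norm_num), HahnSeries.coeff_one, if_pos rfl]
      exact one_pos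
  have := sub_pos.2 h
  exact this

theorem Positive.natMul {x : H} (n : ℕ) (hn : 0 < n) (hx : Positive x) : Positive (n * x) := by
  induction n with
  | zero => omega
  | succ n ih =>
    rcases Nat.eq_zero_or_pos n with h | h
    · subst h
      simpa using hx
    · have := (ih h).add hx
      have e : ((n + 1 : ℕ) : H) * x = n * x + x := by push_cast; ring
      rw [e]
      exact this

theorem positive_neg_trace :
    Positive (s⁻¹ ^ 3 * (1 - 3 * s + 3 * s ^ 2 - 4 * s ^ 3 + 3 * s ^ 4 - 3 * s ^ 5 + s ^ 6)) := by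
  have hs := s_pos
  have hi : Positive (s⁻¹) := by
    unfold Positive s t
    rw [Units.val_mk0, HahnSeries.inv_single, HahnSeries.leadingCoeff_of_single, inv_one]
    exact one_pos
  have h1 := pos_one_sub 3
  have h2 := pos_one_sub 2
  have h3 := pos_one_sub 1
  have h4 : Positive (s ^ 2) := by rw [pow_two]; exact hs.mul hs
  have h5 : Positive (s ^ 4) := by
    have : s ^ 4 = s ^ 2 * s ^ 2 := by ring
    rw [this]; exact h4.mul h4
  have h6 : Positive (s ^ 6) := by
    have : s ^ 6 = s ^ 2 * s ^ 4 := by ring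
    rw [this]; exact h4.mul h5
  have h7 : Positive (s⁻¹ ^ 3) := by
    have : s⁻¹ ^ 3 = s⁻¹ * s⁻¹ * s⁻¹ := by ring
    rw [this]; exact (hi.mul hi).mul hi
  apply h7.mul
  have h8 := h4.mul h2
  have e : 1 - 3 * s + 3 * s ^ 2 - 4 * s ^ 3 + 3 * s ^ 4 - 3 * s ^ 5 + s ^ 6 =
      (1 - ((3 : ℕ) : H) * s) + ((2 : ℕ) : H) * (s ^ 2 * (1 - ((2 : ℕ) : H) * s)) + s ^ 2 +
      ((3 : ℕ) : H) * (s ^ 4 * (1 - ((1 : ℕ) : H) * s)) + s ^ 6 := by
    push_cast
    ring
  rw [e]
  exact (((h1.add (h8.natMul 2 (by norm_num))).add h4).add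
    ((h5.mul h3).natMul 3 (by norm_num))).add h6

/-- **Theorem.** There is an order-preserving braid `β ∈ B₃` such that every eigenvalue of the
reduced Burau matrix `ρ(β)` in the field `𝔼` of Puiseux series is negative; in particular `ρ(β)`
has no positive eigenvalue in `𝔼`. -/
theorem result : ∃ β : B3, OrderPreserving β ∧
    ∀ x : H, IsEigenvalue β x → Negative x ∧ ¬ Positive x := by
  refine ⟨β, orderPreserving_β, ?_⟩
  rintro x ⟨-, hx⟩
  rw [Matrix.charpoly_fin_two] at hx
  simp only [Polynomial.eval₂_add, Polynomial.eval₂_sub, Polynomial.eval₂_mul, Polynomial.eval₂_pow,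
    Polynomial.eval₂_X, Polynomial.eval₂_C] at hx
  rw [trace_det.1, trace_det.2] at hx
  have hq := positive_neg_trace
  set q := s⁻¹ ^ 3 * (1 - 3 * s + 3 * s ^ 2 - 4 * s ^ 3 + 3 * s ^ 4 - 3 * s ^ 5 + s ^ 6) with hqdef
  have hnp : ¬ Positive x := by
    intro hp
    have h1 : Positive (x * x + q * x + 1) := ((hp.mul hp).add (hq.mul hp)).add positive_one
    have h2 : x * x + q * x + 1 = 0 := by rw [← hx]; ring
    rw [h2] at h1
    unfold Positive at h1
    rw [HahnSeries.leadingCoeff_zero] at h1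
    exact lt_irrefl _ h1
  have hx0 : x ≠ 0 := by
    rintro rfl
    simp at hx
  refine ⟨?_, hnp⟩
  unfold Negative
  unfold Positive at hnp
  have h3 : x.leadingCoeff ≠ 0 := HahnSeries.leadingCoeff_ne_zero.2 hx0
  exact lt_of_le_of_ne (not_lt.1 hnp) h3

end Pool.Agent.Results.MP_6f07cb_gt.PureBraid
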